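import Mathlib
import Pool.Agent.N485.BT.Product

/-! # MP_f53b3d_al: products of a supramenable group with an exponentially bounded group

`SupramenableM G`: for every nonempty `A` there is a finitely additive left-invariant measure on all
subsets of `G`, with values in `[0, ∞]`, that gives `A` measure one.
`ExpBounded H`: every finite subset of `H` generates a subgroup of subexponential growth.
`SubexpKer π`: for every finite `S` and `b > 1` the ball of radius `n` for `S` contains at most `b ^ n`
elements of the kernel of `π` for all large `n` (subexponential relative growth).

1. If `G` is supramenable and `H` is exponentially bounded, then `G × H` is supramenable. So the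
   answer to Q1 is yes if one of the two groups is exponentially bounded; all groups that are known
   to be supramenable are exponentially bounded.
2. More generally, let `π` be a homomorphism from `Γ` to a supramenable group `Q`. If the kernel of
   `π` has subexponential relative growth in `Γ`, then `Γ` is supramenable.
3. In particular this holds if the kernel is finite.

Proof.  If `Γ` is not supramenable, then a nonempty subset is paradoxical (Tarski's theorem, proved
in the helper files with Hall's theorem and an ultrafilter limit of Foelner sets), so the orbit of a
suitable point is an injective Lipschitz image of the binary tree in `Γ`.  Its image in the subgroup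
`Q0` of `Q` generated by the translating elements has subexponential multiplicities.  So a vertex has
few vertices at tree distance `n` whose image in `Q0` is at distance at most `ε n`, and a counting
argument (Rosenfeld's form of the local lemma) gives a binary subtree that is embedded
quasi-isometrically in `Q0`.  With Hall's theorem this gives a paradoxical subset of `Q`. -/

set_option autoImplicit false

namespace Pool.Agent.Results.MP_f53b3d_al.ExponentiallyBoundedFactor

open Pool.Agent.N485.BT

universe u v

theorem result :
    (∀ (G : Type u) (H : Type v) [Group G] [Group H],
      SupramenableM G → ExpBounded H → SupramenableM (G × H)) ∧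
    (∀ (Γ : Type u) (Q : Type v) [Group Γ] [Group Q] (π : Γ →* Q),
      SubexpKer π → SupramenableM Q → SupramenableM Γ) ∧
    (∀ (Γ : Type u) (Q : Type v) [Group Γ] [Group Q] (π : Γ →* Q),
      {g : Γ | π g = 1}.Finite → SupramenableM Q → SupramenableM Γ) :=
  ⟨fun _ _ _ _ hG hH => supramenable_prod hG hH,
    fun _ _ _ _ π h hQ => supramenable_of_kernel π h hQ,
    fun _ _ _ _ π h hQ => supramenable_of_kernel π (trivial_subexpKer π h) hQ⟩

end Pool.Agent.Results.MP_f53b3d_al.ExponentiallyBoundedFactor
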